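import Pool.Agent.FGT.Stmts

/-!
# Squad FGT, row STB (helper25): infinite stabilizers
-/

set_option autoImplicit false

namespace Pool.Agent.FGT.H25

open Filter Topology Pool.Agent.FGT
open scoped Pointwise

universe u

theorem displ {G : Type u} [Group G] (α : G →* Equiv.Perm ℤ) (S : Set G) (ρ : ℕ)
    (hρ : ∀ g ∈ S, ∀ j : ℤ, |α g j - j| ≤ ρ) (j : ℤ) (n : ℕ) :
    ∀ g ∈ S ^ n, |α g j - j| ≤ (n * ρ : ℕ) := by
  induction n with
  | zero =>
    intro g hg
    rw [pow_zero, Set.mem_one] at hg
    rw [hg, map_one]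
    simp
  | succ n ih =>
    intro g hg
    rw [pow_succ'] at hg
    obtain ⟨a, ha, b, hb, rfl⟩ := Set.mem_mul.mp hg
    have h1 := hρ a ha (α b j)
    have h2 := ih b hb
    rw [map_mul, Equiv.Perm.mul_apply]
    have h3 : α a (α b j) - j = (α a (α b j) - α b j) + (α b j - j) := by ring
    rw [h3]
    refine (abs_add_le _ _).trans ?_
    have h4 : (((n + 1) * ρ : ℕ) : ℤ) = ρ + (n * ρ : ℕ) := by
      push_cast
      ring
    rw [h4]
    exact add_le_add h1 h2

theorem one_point (hL : LinStmt.{u}) (L : Type u) [Group L] (ht : Tors L) (hn : NLFS L)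
    (α : L →* Equiv.Perm ℤ) (hb : BDp α) (K : Subgroup L) (hK : K.FG)
    (hinf : (K : Set L).Infinite) (j : ℤ) :
    ∃ K' : Subgroup L, K' ≤ K ∧ K'.FG ∧ (K' : Set L).Infinite ∧ j ∈ Fx α K' := by
  classical
  -- the stabilizer
  let St : Subgroup L :=
    { carrier := {g | g ∈ K ∧ α g j = j}
      mul_mem' := by
        rintro a b ⟨ha, ha'⟩ ⟨hb, hb'⟩
        refine ⟨K.mul_mem ha hb, ?_⟩
        rw [map_mul, Equiv.Perm.mul_apply, hb', ha']
      one_mem' := ⟨K.one_mem, by rw [map_one]; rfl⟩
      inv_mem' := by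
        rintro a ⟨ha, ha'⟩
        refine ⟨K.inv_mem ha, ?_⟩
        rw [map_inv, Equiv.Perm.inv_eq_iff_eq]
        exact ha'.symm }
  have hStK : St ≤ K := fun g hg => hg.1
  suffices h : (St : Set L).Infinite by
    by_contra hcon
    apply h
    apply hn St
    intro H hH hHfg
    by_contra hHinf
    exact hcon ⟨H, hH.trans hStK, hHfg, hHinf, fun g hg => (hH hg).2⟩
  intro hfin
  -- generators of the group `K`
  have hKfg : Group.FG K := (Group.fg_iff_subgroup_fg K).mpr hK
  obtain ⟨S₀, hS₀⟩ := hKfg.out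
  set S : Finset K := insert 1 (S₀ ∪ S₀.image (fun x => x⁻¹)) with hS
  have hS1 : (1 : K) ∈ S := Finset.mem_insert_self _ _
  have hSinv : ∀ s ∈ S, s⁻¹ ∈ S := by
    intro s hs
    rw [hS, Finset.mem_insert, Finset.mem_union, Finset.mem_image] at hs ⊢
    rcases hs with h | h | ⟨t, h, rfl⟩
    · left; rw [h, inv_one]
    · right; right; exact ⟨s, h, rfl⟩
    · right; left; rw [inv_inv]; exact h
  have hSgen : Subgroup.closure (S : Set K) = ⊤ := by
    rw [eq_top_iff, ← hS₀]
    apply Subgroup.closure_mono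
    intro s hs
    rw [hS]
    exact Finset.mem_coe.mpr (Finset.mem_insert_of_mem (Finset.mem_union_left _ hs))
  have hKinf : Infinite K := hinf.to_subtype
  have hKt : Tors K := fun g => Submonoid.isOfFinOrder_coe.mp (ht (g : L))
  -- displacement
  choose R hR using hb
  set ρ : ℕ := S.sup (fun s => R (s : L)) with hρ
  set β : K →* Equiv.Perm ℤ := α.comp K.subtype with hβ
  have hβρ : ∀ g ∈ (S : Set K), ∀ i : ℤ, |β g i - i| ≤ ρ := by
    intro g hg i
    have h1 := hR (g : L) i
    have h2 : R (g : L) ≤ ρ := Finset.le_sup (f := fun s : K => R (s : L)) hg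
    have h3 : (R (g : L) : ℤ) ≤ ρ := by exact_mod_cast h2
    exact le_trans h1 h3
  -- the stabilizer in `K` is a finite set
  have hfinK : {g : K | β g j = j}.Finite := by
    refine Set.Finite.of_finite_image (f := fun g : K => (g : L)) (hfin.subset ?_)
      Subtype.val_injective.injOn
    rintro _ ⟨g, hg, rfl⟩
    exact ⟨g.2, hg⟩
  set m := hfinK.toFinset.card with hm
  obtain ⟨n, hn'⟩ := hL K hKinf hKt S hS1 hSinv hSgen (m * (2 * ρ + 1))
  set T : Finset K := S ^ n with hT
  have hTc : ((S : Set K) ^ n) = (T : Set K) := by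
    rw [hT, Finset.coe_pow]
  rw [hTc, Set.ncard_coe_finset] at hn'
  have h1 : T.card ≤ m * (T.image fun g => β g j).card := by
    apply Finset.card_le_mul_card_image
    intro a ha
    obtain ⟨g₀, hg₀, rfl⟩ := Finset.mem_image.mp ha
    apply Finset.card_le_card_of_injOn (fun g => g₀⁻¹ * g)
    · intro g hg
      have hg' : β g j = β g₀ j := (Finset.mem_filter.mp hg).2
      rw [Finset.mem_coe, Set.Finite.mem_toFinset]
      show β (g₀⁻¹ * g) j = j
      rw [map_mul, Equiv.Perm.mul_apply, hg', ← Equiv.Perm.mul_apply, ← map_mul, inv_mul_cancel,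
        map_one]
      rfl
    · intro g _ g' _ h
      exact mul_left_cancel h
  have h2 : (T.image fun g => β g j).card ≤ 2 * (n * ρ) + 1 := by
    have h3 : (T.image fun g => β g j) ⊆ Finset.Icc (j - (n * ρ : ℕ)) (j + (n * ρ : ℕ)) := by
      intro i hi
      obtain ⟨g, hg, rfl⟩ := Finset.mem_image.mp hi
      have hg' : g ∈ ((S : Set K) ^ n) := by rw [hTc]; exact hg
      have h4 := abs_le.mp (displ β (S : Set K) ρ hβρ j n g hg')
      rw [Finset.mem_Icc]
      constructor
      · linarith [h4.1]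
      · linarith [h4.2]
    refine (Finset.card_le_card h3).trans ?_
    rw [Int.card_Icc]
    omega
  have h5 : T.card ≤ m * (2 * ρ + 1) * (n + 1) := by
    calc T.card ≤ m * (T.image fun g => β g j).card := h1
      _ ≤ m * (2 * (n * ρ) + 1) := Nat.mul_le_mul_left _ h2
      _ ≤ m * ((2 * ρ + 1) * (n + 1)) := by
          apply Nat.mul_le_mul_left
          nlinarith
      _ = _ := by ring
  omega

theorem stb (hL : LinStmt.{u}) : StbStmt.{u} := by
  intro L _ ht hn α hb K hK hinf F
  classical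
  induction F using Finset.induction_on with
  | empty => exact ⟨K, le_rfl, hK, hinf, fun j hj => absurd hj (Finset.notMem_empty j)⟩
  | insert a s _ ih =>
    obtain ⟨K₁, h1, h2, h3, h4⟩ := ih
    obtain ⟨K', h5, h6, h7, h8⟩ := one_point hL L ht hn α hb K₁ h2 h3 a
    refine ⟨K', h5.trans h1, h6, h7, ?_⟩
    intro j hj
    rcases Finset.mem_insert.mp hj with rfl | hj
    · exact h8
    · exact fun g hg => h4 j hj g (h5 hg)

end Pool.Agent.FGT.H25
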